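import Pool.Agent.H.MP_400b40_lc.Defs
import Pool.Agent.Lib.helper21.CPred

set_option autoImplicit false

namespace Pool.Agent.H.MP_400b40_lc

open Nat.Partrec (Code)
open Pool.Agent.Lib.helper21.CPred

instance : Inhabited Fm := ⟨.bot⟩

def S (i j : ℕ) (V : ℕ → ℕ → Prop) : Fm → ℕ → Prop
  | .var x, p => V x p
  | .bot, _ => False
  | .imp a b, p => S i j V a p → S i j V b p
  | .box a, p => ∀ q < p, (p = i + j → q < i) → S i j V a q

def Val (i j : ℕ) (φ : Fm) : Prop := ∀ V, ∀ p ≤ i + j + 1, S i j V φ p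

def T (n k : ℕ) : Prop := Code.evaln k (Denumerable.ofNat Code n) 0 = none

def D (i j : ℕ) : Prop := j % 2 = 0 ∧ 0 < j ∧ (2 * j ≤ i ∨ T (i / 2) j)

def L : Set Fm := {φ | ∀ i j, D i j → Val i j φ}

variable {i j c p : ℕ} {V : ℕ → ℕ → Prop} {φ : Fm}

theorem T.mono {n k l : ℕ} (h : T n k) (e : l ≤ k) : T n l := by
  unfold T at *
  cases e' : Code.evaln l (Denumerable.ofNat Code n) 0 with
  | none => rfl
  | some x => simpa [h] using Code.evaln_mono e (show x ∈ _ from e')

theorem S_subst (σ : ℕ → Fm) : S i j V (φ.subst σ) p ↔ S i j (fun x => S i j V (σ x)) φ p := by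
  induction φ generalizing p <;> simp [S, Fm.subst, *]

theorem normal : Normal L where
  taut _ h i j _ V p _ := h (S i j V · p) id fun _ _ => .rfl
  k _ _ _ _ _ _ h1 h2 q a b := h1 q a b (h2 q a b)
  mp _ _ h1 h2 i j h V p hp := h1 i j h V p hp (h2 i j h V p hp)
  nec _ h i j d V _ _ q _ _ := h i j d V q (by omega)
  sub _ h σ i j d _ p hp := (S_subst σ).2 (h i j d _ p hp)

theorem loeb : Loeb ∈ L := fun i j d V p hp h q => by
  induction q using Nat.strong_induction_on with | h q ih =>
  exact fun a b => h q a b fun r c d => ih r c (by omega) (by omega)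

theorem lt_pair (t c : ℕ) : c < Nat.pair (t + 1) c := by
  unfold Nat.pair
  split_ifs <;> nlinarith

theorem lt_l (a b : ℕ) : a < Nat.pair 2 (Nat.pair a b) := (Nat.left_le_pair ..).trans_lt (lt_pair ..)
theorem lt_r (a b : ℕ) : b < Nat.pair 2 (Nat.pair a b) := (Nat.right_le_pair ..).trans_lt (lt_pair ..)

theorem code_inj : ∀ {a b : Fm}, a.code = b.code → a = b := by
  intro a
  induction a <;> rintro (_ | _ | _ | _) <;> simp_all [Fm.code] <;> grind

theorem del {a i' j' : ℕ} (h : a < i ∧ i = i' + 1 ∧ j = j' ∨ i ≤ a ∧ a < i + j ∧ i = i' ∧ j = j' + 1)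
    (hs : ∀ ψ : Fm, ψ.code ≤ c → (∀ b < a, S i j V ψ b) → S i j V ψ a) (hc : φ.code ≤ c) (p : ℕ) :
    S i' j' (fun x p => V x (if p < a then p else p + 1)) φ p ↔ S i j V φ (if p < a then p else p + 1) := by
  induction φ generalizing p with
  | imp a b h1 h2 =>
    exact imp_congr (h1 ((lt_l ..).le.trans hc) p) (h2 ((lt_r ..).le.trans hc) p)
  | box φ ih =>
    have hc := (lt_pair ..).le.trans hc
    simp only [S, ih hc]
    refine ⟨fun h1 q h2 h3 => ?_, fun h1 q h2 h3 => h1 _ (by grind) (by grind)⟩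
    rcases lt_trichotomy q a with e | rfl | e
    · simpa [e] using h1 q (by grind) (by grind)
    · exact hs _ hc fun b hb => by simpa [hb] using h1 b (by grind) (by grind)
    · simpa [show ¬q - 1 < a by omega, show q - 1 + 1 = q by omega] using h1 (q - 1) (by grind) (by grind)
  | _ => rfl

theorem stable (lo : ℕ) : ∃ a, lo ≤ a ∧ a ≤ lo + c + 1 ∧
    ∀ ψ : Fm, ψ.code ≤ c → (∀ b < a, S i j V ψ b) → S i j V ψ a := by
  by_contra! h
  choose! f h1 h2 h3 using h
  obtain ⟨a, ha, b, hb, e, e'⟩ := Finset.exists_ne_map_eq_of_card_lt_of_maps_to (s := .Icc lo (lo + c + 1))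
    (t := .range (c + 1)) (f := fun a => (f a).code) (by simp; omega) fun a ha => by
      simpa [Nat.lt_succ_iff] using h1 a (Finset.mem_Icc.1 ha).1 (Finset.mem_Icc.1 ha).2
  have e' := code_inj e'
  simp only [Finset.mem_Icc] at ha hb
  rcases lt_or_gt_of_ne e with e | e
  exacts [h3 a ha.1 ha.2 (e' ▸ h2 b hb.1 hb.2 a e), h3 b hb.1 hb.2 (e' ▸ h2 a ha.1 ha.2 b e)]

theorem Val.grow {i' j' : ℕ} (h : Val i' j' φ)
    (e : φ.code + 1 < i ∧ i = i' + 1 ∧ j = j' ∨ φ.code + 1 < j ∧ i = i' ∧ j = j' + 1) : Val i j φ := by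
  intro V
  obtain ⟨a, h1, h2, h3⟩ := stable (c := φ.code) (i := i) (j := j) (V := V) (if i = i' then i else 0)
  have := fun p hp => (del (i' := i') (j' := j') (by grind) h3 le_rfl p).1 (h _ p hp)
  intro q hq
  rcases lt_trichotomy q a with e | rfl | e
  · simpa [e] using this q (by grind)
  · exact h3 _ le_rfl fun b hb => by simpa [hb] using this b (by grind)
  · simpa [show ¬q - 1 < a by omega, show q - 1 + 1 = q by omega] using this (q - 1) (by grind)

theorem mem_L : φ ∈ L ↔ ∀ j < φ.code + 4, ∀ i < 2 * φ.code + 10, D i j → Val i j φ := by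
  refine ⟨fun h j _ i _ => h i j, fun h i j => ?_⟩
  induction e : i + j using Nat.strong_induction_on generalizing i j with | h n ih =>
  intro ⟨d1, d2, d3⟩
  by_cases a : j < φ.code + 4
  · by_cases b : i < 2 * φ.code + 10
    · exact h j a i b ⟨d1, d2, d3⟩
    · exact (ih _ (by omega) (i - 1) j rfl ⟨d1, d2, .inl (by omega)⟩).grow (by omega)
  · exact ((ih _ (by omega) i (j - 2) rfl ⟨by omega, by omega, d3.imp (by omega) (·.mono (by omega))⟩).grow
      (i := i) (j := j - 1) (by omega)).grow (by omega)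

def neg (a : Fm) : Fm := a.imp .bot
def bx (k : ℕ) : Fm := Fm.box^[k] .bot
def hh (k : ℕ) : Fm := neg ((bx (k + 1)).imp (bx k))
def dbl (k x : ℕ) : Fm :=
  neg ((neg (.box ((hh k).imp (.var x)))).imp (.box ((hh k).imp (neg (.var x)))))
def ev : ℕ → Fm
  | 0 => .bot
  | n + 1 => (neg (ev n)).imp (hh (2 * n))

def G : Fm → ℕ → Prop
  | .imp a b, h => G a h → G b h
  | .box a, h => ∀ k < h, G a k
  | _, _ => False

def ht (i j p : ℕ) : ℕ := if p = i + j then i else if p = i + j + 1 then i + j else p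

theorem SG (h : φ.vars = ∅) (hp : p ≤ i + j + 1) (hj : 0 < j) : S i j V φ p ↔ G φ (ht i j p) := by
  induction φ generalizing p with
  | var => simp [Fm.vars] at h
  | bot => rfl
  | imp a b h1 h2 =>
    simp only [Fm.vars, Set.union_empty_iff] at h
    exact imp_congr (h1 h.1 hp) (h2 h.2 hp)
  | box a ih =>
    refine ⟨fun h1 k hk => ?_, fun h1 q a b => (ih h (by omega)).2 (h1 _ (by grind [ht]))⟩
    have : ht i j k = k := by grind [ht]
    exact this ▸ (ih h (by grind [ht])).1 (h1 k (by grind [ht]) (by grind [ht]))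

theorem bx_succ (k : ℕ) : bx (k + 1) = (bx k).box := Function.iterate_succ_apply' ..

theorem v_hh (k : ℕ) : (hh k).vars = ∅ := by
  have : ∀ k, (bx k).vars = ∅ := fun k => by
    induction k with
    | zero => rfl
    | succ k ih => rw [bx_succ]; exact ih
  simp [hh, neg, Fm.vars, this]

theorem G_hh {k h : ℕ} : G (hh k) h ↔ h = k := by
  have : ∀ k h, G (bx k) h ↔ h < k := fun k => by
    induction k with
    | zero => simp [bx, G]
    | succ k ih => exact fun h => by simpa [bx_succ, G, ih] using ⟨fun e => by_contra fun a => (e k (by omega)).false,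
        fun e _ _ => by omega⟩
  simp only [hh, neg, G, this, imp_false]
  omega

theorem G_ev {n h : ℕ} : (ev n).vars = ∅ ∧ (G (ev n) h ↔ h % 2 = 0 ∧ h < 2 * n) := by
  induction n with
  | zero => simp [ev, G, Fm.vars]
  | succ n ih =>
    simp only [ev, neg, G, Fm.vars, ih, v_hh, G_hh, imp_false]
    exact ⟨by simp, by omega⟩

theorem G_const (φ : Fm) : ∃ n, ∀ h ≥ n, G φ h ↔ G φ n := by
  induction φ with
  | imp a b h1 h2 =>
    obtain ⟨n, h1⟩ := h1
    obtain ⟨m, h2⟩ := h2
    exact ⟨n + m, fun h e => by simp only [G, h1 h (by omega), h2 h (by omega), h1 (n + m) (by omega),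
      h2 (n + m) (by omega)]⟩
  | box a =>
    by_cases e : ∀ k, G a k
    · exact ⟨0, by simp [G, e]⟩
    · obtain ⟨k, e⟩ := not_forall.1 e
      exact ⟨k + 1, fun h e' => iff_of_false (fun a => e (a k e')) fun a => e (a k (by omega))⟩
  | _ => exact ⟨0, fun _ _ => .rfl⟩

theorem S_dbl {k x : ℕ} (hp : p ≤ i + j + 1) (hj : 0 < j) (h : S i j V (dbl k x) p) : ht i j p = i + j ∧ k = i := by
  simp only [dbl, neg, S, imp_false, Classical.not_imp, not_forall, not_not] at h
  obtain ⟨⟨q, a1, a2, a3, a4⟩, r, b1, b2, b3, b4⟩ := h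
  rw [SG (v_hh k) (by omega) hj, G_hh] at a3 b3
  have : q ≠ r := fun e => a4 (e ▸ b4)
  grind [ht]

theorem dbl_S (x : ℕ) (hj : 0 < j) : S i j (fun _ q => q = i + j) (dbl i x) (i + j + 1) := fun h =>
  h (fun h => by
      have := h i (by omega) (by omega) ((SG (v_hh i) (by omega) hj).2 (G_hh.2 (by grind [ht])))
      simp only [S] at this
      omega)
    (i + j) (by omega) (by omega) ((SG (v_hh i) (by omega) hj).2 (G_hh.2 (by grind [ht]))) rfl

theorem iep (n : ℕ) : HasInterpolant L (dbl (2 * n) 0) (neg (dbl (2 * n + 1) 1)) ↔ ∃ k, ¬T n k := by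
  constructor
  · rintro ⟨χ, h1, h2, h3⟩
    replace h1 : χ.vars = ∅ := by simpa [dbl, neg, Fm.vars, v_hh] using h1
    by_contra! h
    obtain ⟨m, hm⟩ := G_const χ
    have a := (SG h1 le_rfl (by omega)).1 (h2 (2 * n) (2 * m + 2) ⟨by omega, by omega, .inr (by simpa using h _)⟩
      _ _ le_rfl (dbl_S 0 (by omega)))
    exact h3 (2 * n + 1) (2 * m + 2) ⟨by omega, by omega, .inr (by simpa [Nat.mul_add_div] using h _)⟩ _ _ le_rfl
      ((SG h1 le_rfl (by omega)).2 ((hm _ (by grind [ht])).2 ((hm _ (by grind [ht])).1 a))) (dbl_S 1 (by omega))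
  · rintro ⟨k, h⟩
    refine ⟨ev (2 * n + k + 1), by simp [G_ev (h := 0)], fun i j ⟨d1, d2, d3⟩ V p hp h1 => ?_,
      fun i j ⟨d1, d2, d3⟩ V p hp h1 h2 => ?_⟩
    · obtain ⟨a, rfl⟩ := S_dbl hp d2 h1
      rw [SG (G_ev (h := 0)).1 hp d2, G_ev.2, a]
      have : T (2 * n / 2) j → j < k := fun e => by_contra fun a => h (by simpa using e.mono (by omega))
      grind
    · obtain ⟨a, rfl⟩ := S_dbl hp d2 h2
      rw [SG (G_ev (h := 0)).1 hp d2, G_ev.2, a] at h1
      omega

theorem T_iff (n : ℕ) : (∃ k, ¬T n k) ↔ ((Denumerable.ofNat Code n).eval 0).Dom := by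
  simp only [Part.dom_iff_mem, Code.evaln_complete, T, ← ne_eq, Option.ne_none_iff_exists', Option.mem_def]
  exact exists_comm

theorem un_lt (h : c.unpair.1 ≠ 0) : c.unpair.2 < c := by
  have := lt_pair (c.unpair.1 - 1) c.unpair.2
  rwa [Nat.sub_add_cancel (by omega), Nat.pair_unpair] at this

def dec (c : ℕ) : Fm :=
  if _h : c.unpair.1 = 0 then .var c.unpair.2 else if c.unpair.1 = 1 then .bot else
    if c.unpair.1 = 2 then .imp (dec c.unpair.2.unpair.1) (dec c.unpair.2.unpair.2) else .box (dec c.unpair.2)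
decreasing_by
  exacts [c.unpair.2.unpair_left_le.trans_lt (un_lt _h), c.unpair.2.unpair_right_le.trans_lt (un_lt _h), un_lt _h]

theorem dec_code (φ : Fm) : dec φ.code = φ := by
  induction φ <;> rw [dec] <;> simp_all [Fm.code]

open Classical in
noncomputable def E (a : ℕ × ℕ × ℕ) (c : ℕ) : List Bool :=
  (List.range (a.1 + a.2.1 + 2)).map fun p =>
    decide (S a.1 a.2.1 (fun x p => a.2.2 / 2 ^ Nat.pair x p % 2 = 1) (dec c) p)

theorem E_get {a : ℕ × ℕ × ℕ} {d : ℕ} (h : d < c) (hp : p < a.1 + a.2.1 + 2) :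
    (((List.range c).map (E a)).getD d []).getD p false = true ↔
      S a.1 a.2.1 (fun x p => a.2.2 / 2 ^ Nat.pair x p % 2 = 1) (dec d) p := by
  simp [E, h, hp]

def P (z : ((ℕ × ℕ × ℕ) × List (List Bool)) × ℕ) : Prop :=
  z.1.2.length.unpair.1 = 0 ∧ z.1.1.2.2 / 2 ^ Nat.pair z.1.2.length.unpair.2 z.2 % 2 = 1 ∨ z.1.2.length.unpair.1 = 2 ∧
    (¬(z.1.2.getD z.1.2.length.unpair.2.unpair.1 []).getD z.2 false = true ∨
      (z.1.2.getD z.1.2.length.unpair.2.unpair.2 []).getD z.2 false = true) ∨ 2 < z.1.2.length.unpair.1 ∧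
        ∀ q ∈ List.range z.2, (z.2 = z.1.1.1 + z.1.1.2.1 ∧ ¬q < z.1.1.1) ∨
          (z.1.2.getD z.1.2.length.unpair.2 []).getD q false = true

open Primrec in
theorem P_prim : PrimrecPred P := by
  have l : Primrec fun z : ((ℕ × ℕ × ℕ) × List (List Bool)) × ℕ => z.1.2 := snd.comp fst
  have u := unpair.comp (list_length.comp l)
  have u1 := fst.comp u
  have u2 := snd.comp u
  have a : Primrec fun z : ((ℕ × ℕ × ℕ) × List (List Bool)) × ℕ => z.1.1 := fst.comp fst
  have g := fun {f} (h : Primrec f) => Primrec.eq.comp ((list_getD false).comp ((list_getD []).comp l h) snd)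
    (const true)
  have r : PrimrecRel fun q (z : ((ℕ × ℕ × ℕ) × List (List Bool)) × ℕ) =>
      (z.2 = z.1.1.1 + z.1.1.2.1 ∧ ¬q < z.1.1.1) ∨ (z.1.2.getD z.1.2.length.unpair.2 []).getD q false = true :=
    ((Primrec.eq.comp (snd.comp snd) ((nat_add.comp (fst.comp a) (fst.comp (snd.comp a))).comp snd)).and
      (nat_lt.comp fst ((fst.comp a).comp snd)).not).or (Primrec.eq.comp ((list_getD false).comp
        (((list_getD []).comp l u2).comp snd) fst) (const true))
  exact ((Primrec.eq.comp u1 (const 0)).and (Primrec.eq.comp (nat_mod.comp (nat_div.comp (snd.comp (snd.comp a))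
    ((Primrec₂.unpaired'.1 Nat.Primrec.pow).comp (const 2) (Primrec₂.natPair.comp u2 snd))) (const 2))
    (const 1))).or (((Primrec.eq.comp u1 (const 2)).and ((g (fst.comp (unpair.comp u2))).not.or
      (g (snd.comp (unpair.comp u2))))).or ((nat_lt.comp (const 2) u1).and
        (r.forall_mem_list.comp (list_range.comp snd) .id)))

open Primrec in
theorem E_prim : Primrec₂ E := by
  classical
  refine nat_strong_rec E (g := fun a l => some ((List.range (a.1 + a.2.1 + 2)).map fun p => decide (P ((a, l), p))))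
    (option_some.comp (list_map (list_range.comp (nat_add.comp (nat_add.comp (fst.comp fst)
      (fst.comp (snd.comp fst))) (const 2))) P_prim.decide.to₂)) fun a c => ?_
  rw [E]
  simp only [P, List.length_map, List.length_range, Option.some.injEq, List.map_inj_left, List.mem_range,
    decide_eq_decide]
  intro p hp
  rw [dec]
  split_ifs with h e e'
  iterate 2 simp [S, *]
  all_goals have h1 := un_lt h
  · rw [E_get (c.unpair.2.unpair_left_le.trans_lt h1) hp, E_get (c.unpair.2.unpair_right_le.trans_lt h1) hp]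
    simp [e', S, imp_iff_not_or]
  · simp only [S, h, e', show 2 < c.unpair.1 by omega, false_and, false_or, true_and]
    exact forall₂_congr fun q hq => by rw [E_get h1 (by omega)]; tauto

theorem pair_le {x y n : ℕ} (h1 : x ≤ n) (h2 : y ≤ n) : Nat.pair x y < (n + 1) ^ 2 :=
  (Nat.pair_lt_max_add_one_sq x y).trans_le (Nat.pow_le_pow_left (by omega) 2)

theorem S_congr {W : ℕ → ℕ → Prop} {n : ℕ} (h : ∀ x ≤ n, ∀ q ≤ n, V x q ↔ W x q) (hc : φ.code ≤ n) (hp : p ≤ n) :
    S i j V φ p ↔ S i j W φ p := by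
  induction φ generalizing p with
  | var x => exact h x ((Nat.right_le_pair ..).trans hc) p hp
  | bot => rfl
  | imp a b h1 h2 => exact imp_congr (h1 ((lt_l ..).le.trans hc) hp) (h2 ((lt_r ..).le.trans hc) hp)
  | box a ih => exact forall₂_congr fun q _ => imp_congr_right fun _ => ih ((lt_pair ..).le.trans hc) (by omega)

theorem val_iff : Val i j φ ↔ ∀ w < 2 ^ (φ.code + i + j + 2) ^ 2, ∀ p < i + j + 2,
    (E (i, j, w) φ.code).getD p false = true := by
  classical
  refine ⟨fun h w _ p hp => by simpa [E, hp, dec_code] using h _ p (by omega), fun h V p hp => ?_⟩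
  have := h _ (Nat.ofBits_lt_two_pow fun k => decide (V k.1.unpair.1 k.1.unpair.2)) p (by omega)
  simp only [E, List.getD_eq_getElem?_getD, List.getElem?_map, List.getElem?_range (show p < i + j + 2 by omega),
    dec_code, Option.map_some, Option.getD_some, decide_eq_true_eq] at this
  refine (S_congr (n := φ.code + i + j + 1) (fun x hx q hq => ?_) (by omega) (by omega)).1 this
  rw [← decide_eq_true_iff (p := _ = 1), ← Nat.testBit_eq_decide_div_mod_eq, Nat.testBit_ofBits_lt _ _ (pair_le hx hq)]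
  simp

open Computable in
theorem L_dec : ∃ f : ℕ → Bool, Computable f ∧ ∀ φ : Fm, f φ.code = true ↔ φ ∈ L := by
  have pw := (Primrec₂.unpaired'.1 Nat.Primrec.pow).to_comp
  have ad := Primrec.nat_add.to_comp
  have : ComputablePred fun c : ℕ => ∀ j < c + 4, ∀ i < 2 * c + 10, ¬D i j ∨ ∀ w < 2 ^ (c + i + j + 2) ^ 2,
      ∀ p < i + j + 2, (E (i, j, w) c).getD p false = true := by
    refine call (call (cor (ComputablePred.not ?_) (call (call ?_ ?_) ?_)) ?_) (ad.comp .id (const 4))
    · exact cand (ceq (Primrec.nat_mod.to_comp.comp (snd.comp fst) (const 2)) (const 0))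
        (cand (clt (const 0) (snd.comp fst)) (cor (ccomp (p := fun z : ℕ × ℕ => z.1 ≤ z.2) (cprim Primrec.nat_le)
          ((Primrec.nat_mul.to_comp.comp (const 2) (snd.comp fst)).pair snd))
          (ceq (Code.primrec_evaln.to_comp.comp (((snd.comp fst).pair ((Primrec.ofNat Code).to_comp.comp
            (Primrec.nat_div.to_comp.comp snd (const 2)))).pair (const 0))) (const none))))
    · exact ceq ((Primrec.list_getD false).to_comp.comp (E_prim.to_comp.comp ((snd.comp (fst.comp fst)).pair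
        ((snd.comp (fst.comp (fst.comp fst))).pair (snd.comp fst))) (fst.comp (fst.comp (fst.comp fst)))) snd)
        (const true)
    · exact ad.comp (ad.comp (snd.comp fst) (snd.comp (fst.comp fst))) (const 2)
    · exact pw.comp (const 2) (pw.comp (ad.comp (ad.comp (ad.comp (fst.comp fst) snd) (snd.comp fst)) (const 2))
        (const 2))
    · exact ad.comp (Primrec.nat_mul.to_comp.comp (const 2) fst) (const 10)
  obtain ⟨f, h1, h2⟩ := ComputablePred.computable_iff.1 this
  exact ⟨f, h1, fun φ => by simp only [← congrFun h2 φ.code, mem_L, val_iff, imp_iff_not_or (a := D _ _)]⟩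

open Primrec in
theorem dbl_prim {k : ℕ → ℕ} (hk : Primrec k) (x : ℕ) : Primrec fun n => (dbl (k n) x).code := by
  have im : ∀ {f g : ℕ → Fm}, (Primrec fun n => (f n).code) → (Primrec fun n => (g n).code) →
      Primrec fun n => ((f n).imp (g n)).code := fun a b =>
    Primrec₂.natPair.comp (const 2) (Primrec₂.natPair.comp a b)
  have bo : ∀ {f : ℕ → Fm}, (Primrec fun n => (f n).code) → Primrec fun n => (f n).box.code :=
    Primrec₂.natPair.comp (const 3)
  have b : Primrec fun n => (bx n).code :=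
    (nat_iterate .id (const (Nat.pair 1 0)) (Primrec₂.natPair.comp (const 3) snd).to₂).of_eq fun n => by
      induction n with
      | zero => rfl
      | succ n ih => rw [id, Function.iterate_succ_apply', bx_succ, Fm.code, ← ih, id]
  have h : Primrec fun n => (hh (k n)).code := im (im (b.comp (succ.comp hk)) (b.comp hk)) (const _)
  exact im (im (im (bo (im h (const _))) (const _)) (bo (im h (const _)))) (const _)

end Pool.Agent.H.MP_400b40_lc
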