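import Mathlib

/-! Modal formulas and normal modal logics. -/

set_option autoImplicit false

namespace Pool.Agent.H.MP_400b40_lc

inductive Fm
  | var (x : ℕ)
  | bot
  | imp (a b : Fm)
  | box (a : Fm)

def Fm.code : Fm → ℕ
  | var x => Nat.pair 0 x
  | bot => Nat.pair 1 0
  | imp a b => Nat.pair 2 (Nat.pair a.code b.code)
  | box a => Nat.pair 3 a.code

def Fm.vars : Fm → Set ℕ
  | var x => {x}
  | bot => ∅
  | imp a b => a.vars ∪ b.vars
  | box a => a.vars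

def Fm.subst (σ : ℕ → Fm) : Fm → Fm
  | var x => σ x
  | bot => bot
  | imp a b => imp (a.subst σ) (b.subst σ)
  | box a => box (a.subst σ)

/-- true under every Boolean valuation (boxed formulas count as atoms) -/
def Taut (φ : Fm) : Prop := ∀ v : Fm → Prop, ¬v .bot → (∀ a b, v (.imp a b) ↔ (v a → v b)) → v φ

structure Normal (L : Set Fm) : Prop where
  taut : ∀ φ, Taut φ → φ ∈ L
  k : Fm.imp (.box (.imp (.var 0) (.var 1))) (.imp (.box (.var 0)) (.box (.var 1))) ∈ L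
  mp : ∀ a b, a.imp b ∈ L → a ∈ L → b ∈ L
  nec : ∀ a ∈ L, a.box ∈ L
  sub : ∀ a ∈ L, ∀ σ, a.subst σ ∈ L

def Loeb : Fm := .imp (.box (.imp (.box (.var 0)) (.var 0))) (.box (.var 0))

def HasInterpolant (L : Set Fm) (φ ψ : Fm) : Prop :=
  ∃ χ : Fm, χ.vars ⊆ φ.vars ∩ ψ.vars ∧ φ.imp χ ∈ L ∧ χ.imp ψ ∈ L

end Pool.Agent.H.MP_400b40_lc
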